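import Pool.Agent.V11296.Pisot

/-! # MP_f878ff_nt: finite `β`-representations over a finite alphabet

For a Pisot number `β` there is an alphabet `{0, ..., m}` over which every element of
`ℤ[β] ∩ [0, 1)` has a finite `β`-representation if and only if `β` is the only positive real
conjugate of `β`.  For a cubic Pisot unit with a non-real conjugate this condition holds, so the
answer to Q1 is yes. -/

set_option autoImplicit false

open Polynomial

namespace Pool.Agent.Results.MP_f878ff_nt.FiniteAlphabet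

/-- `β` is a Pisot number: a real algebraic integer larger than `1` all of whose other conjugates
have modulus smaller than `1`. -/
def IsPisot (β : ℝ) : Prop :=
  1 < β ∧ IsIntegral ℤ β ∧ ∀ z : ℂ, aeval z (minpoly ℤ β) = 0 → z ≠ (β : ℂ) → ‖z‖ < 1

/-- `x` has a finite `β`-representation over the alphabet `{0, ..., m}`:
`x = a₀ β⁻¹ + a₁ β⁻² + ... + a_{k-1} β⁻ᵏ` with digits at most `m`. -/
def HasFiniteRep (β : ℝ) (m : ℕ) (x : ℝ) : Prop :=
  ∃ (k : ℕ) (a : ℕ → ℕ), (∀ j, a j ≤ m) ∧ x = ∑ j ∈ Finset.range k, (a j : ℝ) / β ^ (j + 1)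

theorem result (β : ℝ) (hβ : IsPisot β) :
    (∃ m : ℕ, ∀ x ∈ Algebra.adjoin ℤ {β}, 0 ≤ x → x < 1 → HasFiniteRep β m x) ↔
      ∀ y : ℝ, 0 < y → aeval y (minpoly ℤ β) = 0 → y = β :=
  Pool.Agent.V11296.Pisot.main β hβ.1 hβ.2.1 hβ.2.2

end Pool.Agent.Results.MP_f878ff_nt.FiniteAlphabet
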